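import Pool.Agent.Helper56.Un.E8Stmts

set_option autoImplicit false

/-! Module E_W: the cusp at infinity. -/

namespace Pool.Agent.Helper19.Un

theorem ew_pi2 : (98696 / 10000 : ℝ) ≤ Real.pi ^ 2 := by
  have h := Real.pi_gt_d6
  nlinarith

theorem ew_c1 : (2902 / 100 : ℝ) ≤ 4 * (4 * Real.pi / Real.sqrt 3) := by
  have h := Real.pi_gt_d6
  have hs : Real.sqrt 3 ≤ 173206 / 100000 := by
    rw [Real.sqrt_le_left (by norm_num)]
    norm_num
  have hs0 : 0 < Real.sqrt 3 := Real.sqrt_pos.2 (by norm_num)
  have e : 4 * (4 * Real.pi / Real.sqrt 3) = (16 * Real.pi) / Real.sqrt 3 := by ring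
  rw [e, le_div_iff₀ hs0]
  nlinarith

theorem ew_c2 : (13159 / 1000 : ℝ) ≤ 4 * Real.pi ^ 2 / Real.sqrt 3 ^ 2 := by
  rw [Real.sq_sqrt (by norm_num)]
  have := ew_pi2
  linarith

/-- lower bound of the Poincare constant -/
theorem ew_mu {H k : ℝ} (hH : 0 ≤ H) (h1 : k ≤ 5263 / 100 * H)
    (h2 : k ≤ 2902 / 100 * H + 13159 / 1000 * H ^ 2) :
    k ≤ muP 4 (4 / 3) (Real.sqrt 3) H := by
  unfold muP
  apply le_min
  · have := ew_pi2
    have : 5263 / 100 * H ≤ 4 * Real.pi ^ 2 * (4 / 3) * H := by
      apply mul_le_mul_of_nonneg_right _ hH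
      linarith
    linarith
  · have e1 : 2902 / 100 * H ≤ 4 * (4 * Real.pi / Real.sqrt 3) * H :=
      mul_le_mul_of_nonneg_right ew_c1 hH
    have e2 : 13159 / 1000 * H ^ 2 ≤ 4 * Real.pi ^ 2 / Real.sqrt 3 ^ 2 * H ^ 2 :=
      mul_le_mul_of_nonneg_right ew_c2 (by positivity)
    push_cast
    linarith

theorem st_EW : ST_EW := by
  constructor
  · intro H hH
    have hH0 : 0 < H := by linarith
    unfold gE
    rw [one_div_one_div]
    have hinv : H * (1 / H) = 1 := by field_simp
    have hw : 0 ≤ wt (1 / H) := by
      unfold wt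
      positivity
    unfold w00
    split_ifs with h
    · have hx : 0 ≤ 77 / 100 - 1 / H := by
        rw [sub_nonneg, div_le_iff₀ hH0]; linarith
      rcases le_total H (179 / 100) with h3 | h3
      · have hmu : 1451 / 50 * H + 263 / 20 * H ^ 2 ≤ muP 4 (4 / 3) (Real.sqrt 3) H := by
          apply ew_mu hH0.le
          · nlinarith
          · nlinarith
        have hwt : 77 / 100 - 1 / H ≤ wt (1 / H) := by
          unfold wt
          have := le_max_right 0 (77 / 100 - 1 / H)
          have := le_max_left 0 (14 / 25 - 1 / H)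
          linarith
        exact mul_le_mul hmu hwt hx (le_trans (by positivity) hmu)
      · have hmu : 5257 / 100 * H ≤ muP 4 (4 / 3) (Real.sqrt 3) H := by
          apply ew_mu hH0.le
          · nlinarith
          · nlinarith
        have hwt : 133 / 100 - 2 * (1 / H) ≤ wt (1 / H) := by
          unfold wt
          have := le_max_right 0 (77 / 100 - 1 / H)
          have := le_max_right 0 (14 / 25 - 1 / H)
          linarith
        have h5 : 5257 / 100 * H * (133 / 100 - 2 * (1 / H)) ≤
            muP 4 (4 / 3) (Real.sqrt 3) H * wt (1 / H) := by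
          have h0 : 0 ≤ 133 / 100 - 2 * (1 / H) := by
            have : 1 / H ≤ 1 / (3 / 2) := by
              apply one_div_le_one_div_of_le (by norm_num) hH
            have h6 : 1 / H ≤ 14 / 25 := by
              rw [div_le_iff₀ hH0]; linarith
            linarith
          exact mul_le_mul hmu hwt h0 (le_trans (by positivity) hmu)
        refine le_trans ?_ h5
        have e1 : 5257 / 100 * H * (133 / 100 - 2 * (1 / H)) =
            5257 / 100 * (133 / 100 * H - 2) := by
          linear_combination (-(5257 / 100) * 2) * hinv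
        have e2 : (1451 / 50 * H + 263 / 20 * H ^ 2) * (77 / 100 - 1 / H) =
            (1451 / 50 + 263 / 20 * H) * (77 / 100 * H - 1) := by
          linear_combination (-(1451 / 50) - 263 / 20 * H) * hinv
        rw [e1, e2]
        nlinarith
    · have h9 : 9 / 5 ≤ H := not_lt.1 h
      have hmu : 5263 / 100 * H ≤ muP 4 (4 / 3) (Real.sqrt 3) H := by
        apply ew_mu hH0.le
        · exact le_rfl
        · nlinarith
      have hwt : 133 / 100 - 2 * (1 / H) ≤ wt (1 / H) := by
        unfold wt
        have := le_max_right 0 (77 / 100 - 1 / H)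
        have := le_max_right 0 (14 / 25 - 1 / H)
        linarith
      have h6 : 1 / H ≤ 14 / 25 := by
        rw [div_le_iff₀ hH0]; linarith
      have h5 : 5263 / 100 * H * (133 / 100 - 2 * (1 / H)) ≤
          muP 4 (4 / 3) (Real.sqrt 3) H * wt (1 / H) :=
        mul_le_mul hmu hwt (by linarith) (le_trans (by positivity) hmu)
      refine le_trans ?_ h5
      have e1 : 5263 / 100 * H * (133 / 100 - 2 * (1 / H)) =
          5263 / 100 * (133 / 100 * H - 2) := by
        linear_combination (-(5263 / 100) * 2) * hinv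
      rw [e1]
      linarith
  · intro H hH
    unfold w00
    rw [if_neg (by linarith)]
    linarith

end Pool.Agent.Helper19.Un
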